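import Pool.Agent.Lib.MP_deef39_co_Ord.KRed

/-! # Tour module Frame: the closing lemmas from a potential

If every plane path which is not closable leads, by rotations at both ends, to a path with a
smaller value of a potential, then `CL0` holds; the same with a kept hull edge for `CLK`.
-/

set_option autoImplicit false

namespace FPW

variable {α : Type*} {p : α → ℝ × ℝ}

/-- a potential on the lists decreases along the relation until the goal holds -/
theorem goal_of_pot {β : Type*} [LinearOrder β] (R : List α → List α → Prop)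
    (hR : ∀ l l', R l l' → l'.Perm l) (T : List α → β) (Good Goal : List α → Prop)
    (hG : ∀ l l', Good l → R l l' → Good l')
    (h : ∀ l, Good l → ¬ Goal l → ∃ l', Relation.ReflTransGen R l l' ∧ T l' < T l)
    (l : List α) (hl : Good l) : ∃ l', Relation.ReflTransGen R l l' ∧ Goal l' := by
  classical
  have hperm : ∀ l', Relation.ReflTransGen R l l' → l'.Perm l := by
    intro l' h1
    induction h1 with
    | refl => exact List.Perm.refl _
    | tail _ h2 ih => exact (hR _ _ h2).trans ih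
  have hgood : ∀ l', Relation.ReflTransGen R l l' → Good l' := by
    intro l' h1
    induction h1 with
    | refl => exact hl
    | tail _ h2 ih => exact hG _ _ ih h2
  have hfin : {l' | Relation.ReflTransGen R l l'}.Finite := by
    refine Set.Finite.subset (List.finite_toSet l.permutations) ?_
    intro l' h1
    exact List.mem_permutations.2 (hperm l' h1)
  obtain ⟨m, hm, hmin⟩ := Set.exists_min_image _ T hfin ⟨l, Relation.ReflTransGen.refl⟩
  refine ⟨m, hm, ?_⟩
  by_contra hn
  obtain ⟨l', h1, h2⟩ := h m (hgood m hm) hn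
  exact absurd (hmin l' (hm.trans h1)) (not_le.2 h2)

/-- `CL0` from a potential -/
theorem cl0_of_pot {β : Type*} [LinearOrder β] (T : List α → β)
    (h : ∀ l : List α, l ≠ [] → l.Nodup → Plane p (Ed l) → ¬ Clos p l →
      ∃ l', Relation.ReflTransGen (U p) l l' ∧ T l' < T l) : CL0 p := by
  intro l h1 h2 h3
  refine goal_of_pot (U p) (fun l l' h => u_perm (Relation.ReflTransGen.single h)) T
    (fun l => l ≠ [] ∧ l.Nodup ∧ Plane p (Ed l)) (Clos p) ?_ ?_ l ⟨h1, h2, h3⟩
  · rintro l l' ⟨h4, h5, h6⟩ h7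
    have h8 := Relation.ReflTransGen.single h7
    have h9 := u_perm h8
    exact ⟨fun h => h4 (by rw [h] at h9; exact h9.symm.eq_nil), h9.nodup_iff.2 h5,
      u_plane h6 h8⟩
  · rintro l ⟨h4, h5, h6⟩ h7
    exact h l h4 h5 h6 h7

/-- `CLK` from a potential (which may depend on the kept edge) -/
theorem clk_of_pot {β : Type*} [LinearOrder β] (T : α → α → List α → β)
    (h : ∀ (u v : α) (l : List α), l.Nodup → Plane p (Ed l) → Ed l u v →
      (∀ t ∈ l, 0 ≤ o p u v t) → ¬ Clos p l → (∀ B, l ≠ u :: B) → (∀ B, l ≠ v :: B) →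
      ∃ l', Relation.ReflTransGen (UK p u v) l l' ∧ T u v l' < T u v l) : CLK p := by
  intro u v l h1 h2 h3 h4
  refine goal_of_pot (UK p u v) (fun l l' h => u_perm (Relation.ReflTransGen.single h.1))
    (T u v) (fun l => l.Nodup ∧ Plane p (Ed l) ∧ Ed l u v ∧ ∀ t ∈ l, 0 ≤ o p u v t)
    (fun l' => Clos p l' ∨ (∃ B, l' = u :: B) ∨ ∃ B, l' = v :: B) ?_ ?_ l ⟨h1, h2, h3, h4⟩
  · rintro l l' ⟨h4, h5, h6, h7⟩ h8
    have h9 := Relation.ReflTransGen.single h8.1
    have h10 := u_perm h9
    exact ⟨h10.nodup_iff.2 h4, u_plane h5 h9, h8.2.2, fun t ht => h7 t (h10.mem_iff.1 ht)⟩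
  · rintro l ⟨h4, h5, h6, h7⟩ h8
    rw [not_or, not_or] at h8
    obtain ⟨h8, h9, h10⟩ := h8
    exact h u v l h4 h5 h6 h7 h8 (fun B hB => h9 ⟨B, hB⟩) (fun B hB => h10 ⟨B, hB⟩)

/-- the data for the frozen statement: a potential for `CL0` and one for `CLK` -/
structure TourStep (p : α → ℝ × ℝ) : Prop where
  cl : ∃ T : List α → ℝ, ∀ l : List α, l ≠ [] → l.Nodup → Plane p (Ed l) → ¬ Clos p l →
      ∃ l', Relation.ReflTransGen (U p) l l' ∧ T l' < T l
  ck : ∃ T : α → α → List α → ℝ, ∀ (u v : α) (l : List α), l.Nodup → Plane p (Ed l) →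
      Ed l u v → (∀ t ∈ l, 0 ≤ o p u v t) → ¬ Clos p l → (∀ B, l ≠ u :: B) →
      (∀ B, l ≠ v :: B) → ∃ l', Relation.ReflTransGen (UK p u v) l l' ∧ T u v l' < T u v l

/-- the frozen statement S11933 from `TourStep` -/
theorem s11933_of_tour
    (hT : ∀ (n : ℕ) (p : Fin n → ℝ × ℝ), GP p → TourStep p) :
    ∀ (n : ℕ) (p : Fin n → ℝ × ℝ), Function.Injective p →
      (∀ i j k : Fin n, i ≠ j → j ≠ k → i ≠ k →
        ¬ Collinear ℝ ({p i, p j, p k} : Set (ℝ × ℝ))) →
      ∀ P : SimpleGraph (Fin n) → Prop,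
        (∀ A : SimpleGraph (Fin n), P A ↔
          (A.IsTree ∧ (∀ v : Fin n, (A.neighborSet v).ncard ≤ 2) ∧
            ∀ a b c d : Fin n, A.Adj a b → A.Adj c d → s(a, b) ≠ s(c, d) →
              ∀ x : ℝ × ℝ, x ∈ segment ℝ (p a) (p b) → x ∈ segment ℝ (p c) (p d) →
                (x = p a ∨ x = p b) ∧ (x = p c ∨ x = p d))) →
        ∀ G H : SimpleGraph (Fin n), P G → P H →
          Relation.ReflTransGen
            (fun A B : SimpleGraph (Fin n) =>
              P A ∧ P B ∧ (A.edgeSet \ B.edgeSet).ncard = 1 ∧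
                (B.edgeSet \ A.edgeSet).ncard = 1)
            G H := by
  intro n p hi hc
  have h := hT n p (gp_of hi hc)
  obtain ⟨T, h1⟩ := h.cl
  obtain ⟨T', h2⟩ := h.ck
  exact k_graph n p hi hc (cl0_of_pot T h1) (clk_of_pot T' h2)

end FPW
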